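import Mathlib

/-!
Project FM, package LNK, part B: Andreief's identity with a complex weight.
-/

set_option autoImplicit false

open MeasureTheory Matrix
open scoped ComplexConjugate

namespace Pool.Agent.P8H95.FM

noncomputable section

theorem andr {X : Type*} [MeasurableSpace X] (μ : Measure X) [SigmaFinite μ] (n : ℕ) (h : X → ℂ)
    (p : Fin n → X → ℂ) (hint : ∀ k l, Integrable (fun z => h z * (p k z * conj (p l z))) μ) :
    Integrable (fun z : Fin n → X => (∏ j, h (z j)) *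
      (((‖(Matrix.of fun i j => p j (z i)).det‖ ^ 2 : ℝ)) : ℂ)) (Measure.pi fun _ => μ) ∧
    ∫ z : Fin n → X, (∏ j, h (z j)) * (((‖(Matrix.of fun i j => p j (z i)).det‖ ^ 2 : ℝ)) : ℂ)
      ∂(Measure.pi fun _ => μ) =
      (n.factorial : ℂ) * (Matrix.of fun k l => ∫ x, h x * (p k x * conj (p l x)) ∂μ).det := by
  set g : Fin n → Fin n → X → ℂ := fun k l z => h z * (p k z * conj (p l z)) with hg
  set G : Matrix (Fin n) (Fin n) ℂ := Matrix.of fun k l => ∫ x, g k l x ∂μ with hG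
  have hI0 : ∀ τ σ : Equiv.Perm (Fin n), Integrable (fun x : Fin n → X =>
      ∏ j, g (τ j) (σ j) (x j)) (Measure.pi fun _ => μ) := by
    intro τ σ
    exact Integrable.fintype_prod (f := fun j => g (τ j) (σ j)) (μ := fun _ : Fin n => μ)
      (fun j => hint (τ j) (σ j))
  have hI : ∀ τ σ : Equiv.Perm (Fin n), Integrable (fun x : Fin n → X =>
      (((Equiv.Perm.sign τ : ℤ) : ℂ) * ((Equiv.Perm.sign σ : ℤ) : ℂ)) *
        ∏ j, g (τ j) (σ j) (x j)) (Measure.pi fun _ => μ) := fun τ σ => (hI0 τ σ).const_mul _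
  have hI2 : ∀ τ : Equiv.Perm (Fin n), Integrable (fun x : Fin n → X =>
      ∑ σ : Equiv.Perm (Fin n),
      (((Equiv.Perm.sign τ : ℤ) : ℂ) * ((Equiv.Perm.sign σ : ℤ) : ℂ)) *
        ∏ j, g (τ j) (σ j) (x j)) (Measure.pi fun _ => μ) :=
    fun τ => integrable_finsetSum _ fun σ _ => hI τ σ
  have h1 : ∀ x : Fin n → X, (∏ j, h (x j)) *
      (((‖(Matrix.of fun i j => p j (x i)).det‖ ^ 2 : ℝ)) : ℂ) =
      ∑ τ : Equiv.Perm (Fin n), ∑ σ : Equiv.Perm (Fin n),
        (((Equiv.Perm.sign τ : ℤ) : ℂ) * ((Equiv.Perm.sign σ : ℤ) : ℂ)) *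
          ∏ j, g (τ j) (σ j) (x j) := by
    intro x
    have e2 : (Matrix.of fun i j => p j (x i)).det = ∑ σ : Equiv.Perm (Fin n),
        ((Equiv.Perm.sign σ : ℤ) : ℂ) * ∏ j, p (σ j) (x j) := by
      rw [← det_transpose, det_apply']
      rfl
    have e1 : (((‖(Matrix.of fun i j => p j (x i)).det‖ ^ 2 : ℝ)) : ℂ) =
        (∑ σ : Equiv.Perm (Fin n), ((Equiv.Perm.sign σ : ℤ) : ℂ) * ∏ j, p (σ j) (x j)) *
        (∑ σ : Equiv.Perm (Fin n), ((Equiv.Perm.sign σ : ℤ) : ℂ) * ∏ j, conj (p (σ j) (x j))) := by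
      have e3 : (∑ σ : Equiv.Perm (Fin n), ((Equiv.Perm.sign σ : ℤ) : ℂ) *
          ∏ j, conj (p (σ j) (x j))) = conj ((Matrix.of fun i j => p j (x i)).det) := by
        rw [e2, map_sum]
        refine Finset.sum_congr rfl fun σ _ => ?_
        rw [map_mul, map_prod, map_intCast]
      rw [e3, ← e2, Complex.mul_conj, Complex.normSq_eq_norm_sq]
    rw [e1, Finset.sum_mul_sum, Finset.mul_sum]
    refine Finset.sum_congr rfl fun τ _ => ?_
    rw [Finset.mul_sum]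
    refine Finset.sum_congr rfl fun σ _ => ?_
    have e4 : ∏ j, g (τ j) (σ j) (x j) =
        (∏ j, h (x j)) * ((∏ j, p (τ j) (x j)) * ∏ j, conj (p (σ j) (x j))) := by
      rw [← Finset.prod_mul_distrib, ← Finset.prod_mul_distrib]
    rw [e4]
    ring
  have h2 : ∀ τ : Equiv.Perm (Fin n), ∫ x : Fin n → X, ∑ σ : Equiv.Perm (Fin n),
      (((Equiv.Perm.sign τ : ℤ) : ℂ) * ((Equiv.Perm.sign σ : ℤ) : ℂ)) *
        ∏ j, g (τ j) (σ j) (x j) ∂(Measure.pi fun _ => μ) = G.det := by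
    intro τ
    rw [integral_finsetSum _ (fun σ _ => hI τ σ)]
    have h4 : ∀ σ : Equiv.Perm (Fin n), ∫ x : Fin n → X,
        (((Equiv.Perm.sign τ : ℤ) : ℂ) * ((Equiv.Perm.sign σ : ℤ) : ℂ)) *
        ∏ j, g (τ j) (σ j) (x j) ∂(Measure.pi fun _ => μ) =
        ((Equiv.Perm.sign τ : ℤ) : ℂ) * (((Equiv.Perm.sign σ : ℤ) : ℂ) *
          ∏ j, G (τ j) (σ j)) := by
      intro σ
      rw [integral_const_mul]
      have := integral_fintype_prod_eq_prod (𝕜 := ℂ) (μ := fun _ : Fin n => μ)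
        (fun (j : Fin n) => g (τ j) (σ j))
      rw [this, mul_assoc]
      rfl
    rw [Finset.sum_congr rfl fun σ _ => h4 σ, ← Finset.mul_sum]
    have h5 : ∑ σ : Equiv.Perm (Fin n), ((Equiv.Perm.sign σ : ℤ) : ℂ) * ∏ j, G (τ j) (σ j) =
        ((Equiv.Perm.sign τ : ℤ) : ℂ) * G.det := by
      have h6 := Matrix.det_permute τ G
      rw [← h6, ← det_transpose, det_apply']
      rfl
    rw [h5, ← mul_assoc]
    have h7 : ((Equiv.Perm.sign τ : ℤ) : ℂ) * ((Equiv.Perm.sign τ : ℤ) : ℂ) = 1 := by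
      rcases Int.units_eq_one_or (Equiv.Perm.sign τ) with h | h <;> rw [h] <;> simp
    rw [h7, one_mul]
  simp_rw [h1]
  refine ⟨integrable_finsetSum _ fun τ _ => hI2 τ, ?_⟩
  rw [integral_finsetSum _ (fun τ _ => hI2 τ), Finset.sum_congr rfl fun τ _ => h2 τ,
    Finset.sum_const, Finset.card_univ, Fintype.card_perm, nsmul_eq_mul, Fintype.card_fin]

end

end Pool.Agent.P8H95.FM
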