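import Pool.Agent.P8H98.FM.Stm
import Pool.Agent.K7.H96.GMC.IndA

/-!
Project FM, package DENS: the joint law of the eigenvalues of the spherical ensemble.
-/

set_option autoImplicit false

open MeasureTheory Set Filter Topology Matrix
open scoped ENNReal

namespace Pool.Agent.P8H95.FM

open Pool.Agent.R923.SE Pool.Agent.K7.H95.GMC Pool.Agent.K7.H96.GMC Pool.Agent.P8H98.FM

noncomputable section

/-- the weight of the eigenvalues -/
def wgt {n : ℕ} (s : ℝ) (z : Fin n → ℂ) : ℝ≥0∞ :=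
  ENNReal.ofReal (‖(Matrix.vandermonde z).det‖ ^ 2 * ∏ i, (1 + ‖z i‖ ^ 2) ^ s)

theorem measurable_vdm {n : ℕ} : Measurable fun z : Fin n → ℂ => (Matrix.vandermonde z).det := by
  have h : Continuous fun z : Fin n → ℂ => Matrix.vandermonde z := by
    refine continuous_matrix fun i j => ?_
    simp only [Matrix.vandermonde_apply]
    fun_prop
  exact h.matrix_det.measurable

theorem measurable_wgt {n : ℕ} (s : ℝ) : Measurable (wgt s : (Fin n → ℂ) → ℝ≥0∞) := by
  unfold wgt
  refine ENNReal.measurable_ofReal.comp ((measurable_vdm.norm.pow_const 2).mul ?_)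
  exact Finset.measurable_prod _ fun i _ => (by fun_prop : Measurable fun z : Fin n → ℂ =>
    (1 + ‖z i‖ ^ 2)).pow_const s

/-- diagonal matrices -/
def dia {n : ℕ} (z : Fin n → ℂ) : Mt n n := Matrix.diagonal z

theorem continuous_dia {n : ℕ} : Continuous (dia : (Fin n → ℂ) → Mt n n) := by
  have h : Continuous fun z : Fin n → ℂ => Matrix.diagonal z := by fun_prop
  exact h

theorem vdm_cons {n : ℕ} (z : ℂ) (w : Fin n → ℂ) :
    ‖(Matrix.vandermonde (Fin.cons z w : Fin (n + 1) → ℂ)).det‖ ^ 2 =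
      (∏ i, ‖z - w i‖ ^ 2) * ‖(Matrix.vandermonde w).det‖ ^ 2 := by
  rw [Matrix.det_vandermonde, Matrix.det_vandermonde, Fin.prod_univ_succ, norm_mul, mul_pow]
  congr 1
  · rw [norm_prod, ← Finset.prod_pow]
    simp only [Fin.cons_zero]
    have : (Finset.Ioi (0 : Fin (n + 1))) = Finset.univ.map (Fin.succEmb n) := by
      ext i
      simp only [Finset.mem_Ioi, Finset.mem_map, Finset.mem_univ, true_and]
      constructor
      · intro h
        exact ⟨i.pred (Fin.pos_iff_ne_zero.1 h), by simp⟩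
      · rintro ⟨j, rfl⟩
        exact Fin.succ_pos j
    rw [this, Finset.prod_map]
    refine Finset.prod_congr rfl fun i _ => ?_
    simp only [Fin.coe_succEmb, Fin.cons_succ]
    rw [← norm_neg]
    congr 2
    ring
  · congr 2
    refine Finset.prod_congr rfl fun i _ => ?_
    have : (Finset.Ioi i.succ) = (Finset.Ioi i).map (Fin.succEmb n) := by
      ext j
      simp only [Finset.mem_Ioi, Finset.mem_map, Fin.coe_succEmb]
      constructor
      · intro h
        have h0 : j ≠ 0 := by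
          rintro rfl
          exact absurd h (Fin.not_lt_zero _)
        refine ⟨j.pred h0, ?_, by simp⟩
        rw [Fin.lt_pred_iff]
        exact h
      · rintro ⟨k, hk, rfl⟩
        exact Fin.succ_lt_succ_iff.2 hk
    rw [this, Finset.prod_map]
    simp

theorem charpoly_dia {n : ℕ} (w : Fin n → ℂ) :
    (Matrix.of (Matrix.diagonal w : Mt n n)).charpoly =
      ∏ i, (Polynomial.X - Polynomial.C (w i)) := Matrix.charpoly_diagonal w

theorem dens_aux : ∀ (n : ℕ) (a : ℝ), (n : ℝ) - 1 < a → ∃ c : ℝ≥0∞, c ≠ 0 ∧ c ≠ ∞ ∧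
    ∀ G : Mt n n → ℝ≥0∞, Measurable G →
    (∀ X X' : Mt n n, (Matrix.of X).charpoly = (Matrix.of X').charpoly → G X = G X') →
    ∫⁻ X : Mt n n, G X * ENNReal.ofReal ((dd (Matrix.of X)).re ^ (-a)) =
    c * ∫⁻ z : Fin n → ℂ, G (Matrix.diagonal z) * wgt (-a + n - 1) z := by
  intro n
  induction n with
  | zero =>
    intro a _
    refine ⟨1, one_ne_zero, ENNReal.one_ne_top, fun G hG hGc => ?_⟩
    rw [one_mul]
    have h1 : ∀ X : Mt 0 0, G X * ENNReal.ofReal ((dd (Matrix.of X)).re ^ (-a)) = G X := by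
      intro X
      have h2 : dd (Matrix.of X) = 1 := by unfold dd; simp
      rw [h2]; simp
    have h2 : ∀ z : Fin 0 → ℂ, G (Matrix.diagonal z) * wgt (-a + (0 : ℕ) - 1) z =
        G (Matrix.diagonal z) := by
      intro z
      simp [wgt]
    have h3 : ∀ X : Mt 0 0, G X = G default := fun X => congrArg G (Subsingleton.elim _ _)
    have h4 : ∀ z : Fin 0 → ℂ, G (Matrix.diagonal z) = G default :=
      fun z => congrArg G (Subsingleton.elim _ _)
    rw [lintegral_congr fun X => (h1 X).trans (h3 X), lintegral_congr fun z => (h2 z).trans (h4 z),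
      lintegral_const, lintegral_const]
    congr 1
    rw [volume_pi, volume_pi]
    simp [Measure.pi_empty_univ]
  | succ n ih =>
    intro a ha
    push_cast at ha
    have hn : (0 : ℝ) ≤ n := Nat.cast_nonneg n
    have g3 := Real.Gamma_pos_of_pos (show 0 < a by linarith)
    have g4 := Real.Gamma_pos_of_pos (show 0 < a - n by linarith)
    obtain ⟨c, hc0, hct, h⟩ := s_DEFL n
    obtain ⟨c', hc0', hct', h'⟩ := ih (a - 1) (by linarith)
    have g5 : ENNReal.ofReal (Real.Gamma (a - n) / Real.Gamma a) ≠ 0 := by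
      rw [Ne, ENNReal.ofReal_eq_zero, not_le]; positivity
    refine ⟨c * ENNReal.ofReal (Real.Gamma (a - n) / Real.Gamma a) * c',
      mul_ne_zero (mul_ne_zero hc0 g5) hc0',
      ENNReal.mul_ne_top (ENNReal.mul_ne_top hct ENNReal.ofReal_ne_top) hct', fun G hG hGc => ?_⟩
    -- the section of `G`
    set H₀ : ℂ × Mt n n → ℝ≥0∞ := fun p => G (blk p.1 0 0 p.2) with hH₀
    have hH₀m : Measurable H₀ := hG.comp (continuous_blk.comp (by fun_prop :
      Continuous fun p : ℂ × Mt n n => (p.1, (0 : Fin n → ℂ), (0 : Fin n → ℂ), p.2))).measurable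
    have hGH₀ : ∀ (z : ℂ) (X' : Mt n n) (X : Mt (n + 1) (n + 1)), (Matrix.of X).charpoly =
        (Polynomial.X - Polynomial.C z) * (Matrix.of X').charpoly → G X = H₀ (z, X') := by
      intro z X' X hX
      refine hGc _ _ ?_
      rw [hX, charpoly_tri]
    have e2 := h a (by linarith) G hG hGc H₀ hH₀m hGH₀
    have e8 : ∫⁻ X : Mt (n + 1) (n + 1), G X * ENNReal.ofReal ((dd (Matrix.of X)).re ^ (-a)) =
      ∫⁻ X : Mt (n + 1) (n + 1), G X *
      ENNReal.ofReal ((Matrix.det (1 + (Matrix.of X).conjTranspose * Matrix.of X)).re ^ (-a)) := rfl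
    rw [e8, e2]
    -- the inner integral
    have e3 : ∀ z : ℂ, ∫⁻ X' : Mt n n, H₀ (z, X') *
        ENNReal.ofReal (‖(Matrix.of X').charpoly.eval z‖ ^ 2) *
        ENNReal.ofReal ((Matrix.det (1 + (Matrix.of X').conjTranspose * Matrix.of X')).re
          ^ (-a + 1)) = c' * ∫⁻ w : Fin n → ℂ, H₀ (z, Matrix.diagonal w) *
        ENNReal.ofReal (‖(Matrix.of (Matrix.diagonal w : Mt n n)).charpoly.eval z‖ ^ 2) *
          wgt (-(a - 1) + n - 1) w := by
      intro z
      have hGz : Measurable fun X' : Mt n n => H₀ (z, X') *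
          ENNReal.ofReal (‖(Matrix.of X').charpoly.eval z‖ ^ 2) :=
        (hH₀m.comp (by fun_prop : Measurable fun X' : Mt n n => (z, X'))).mul (measurable_evalnorm z)
      have h4 := h' (fun X' => H₀ (z, X') *
          ENNReal.ofReal (‖(Matrix.of X').charpoly.eval z‖ ^ 2)) hGz (fun X X' hX => by
            simp only [hH₀]
            rw [hX, hGc (blk z 0 0 X) (blk z 0 0 X') (by rw [charpoly_tri, charpoly_tri, hX])])
      have e4 : (-(a - 1) : ℝ) = -a + 1 := by ring
      rw [← h4, e4]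
      rfl
    simp_rw [e3]
    have e5 : ∀ z : ℂ, ENNReal.ofReal ((1 + ‖z‖ ^ 2) ^ (-a + n)) *
        (c' * ∫⁻ w : Fin n → ℂ, H₀ (z, Matrix.diagonal w) *
        ENNReal.ofReal (‖(Matrix.of (Matrix.diagonal w : Mt n n)).charpoly.eval z‖ ^ 2) *
          wgt (-(a - 1) + n - 1) w) = c' * ∫⁻ w : Fin n → ℂ,
        G (Matrix.diagonal (Fin.cons z w : Fin (n + 1) → ℂ)) *
          wgt (-a + (n + 1 : ℕ) - 1) (Fin.cons z w : Fin (n + 1) → ℂ) := by
      intro z
      rw [mul_left_comm, ← lintegral_const_mul' _ _ ENNReal.ofReal_ne_top]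
      congr 1
      refine lintegral_congr fun w => ?_
      have e6 : H₀ (z, Matrix.diagonal w) =
          G (Matrix.diagonal (Fin.cons z w : Fin (n + 1) → ℂ)) := by
        refine (hGH₀ z (Matrix.diagonal w) _ ?_).symm
        rw [charpoly_dia, charpoly_dia, Fin.prod_univ_succ]
        simp
      have e7 : ‖(Matrix.of (Matrix.diagonal w : Mt n n)).charpoly.eval z‖ ^ 2 =
          ∏ i, ‖z - w i‖ ^ 2 := by
        rw [charpoly_dia, Polynomial.eval_prod, norm_prod, ← Finset.prod_pow]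
        simp
      have hz : (0 : ℝ) < 1 + ‖z‖ ^ 2 := by positivity
      rw [e6, e7]
      unfold wgt
      rw [vdm_cons, Fin.prod_univ_succ]
      simp only [Fin.cons_zero, Fin.cons_succ]
      have e9 : (-(a - 1) + n - 1 : ℝ) = -a + n := by ring
      have e10 : (-a + ((n + 1 : ℕ) : ℝ) - 1 : ℝ) = -a + n := by push_cast; ring
      rw [e9, e10]
      have p1 : 0 ≤ ∏ i, ‖z - w i‖ ^ 2 := Finset.prod_nonneg fun _ _ => by positivity
      have p2 : 0 ≤ ‖(Matrix.vandermonde w).det‖ ^ 2 := by positivity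
      have p3 : 0 ≤ (1 + ‖z‖ ^ 2) ^ (-a + (n : ℝ)) := Real.rpow_nonneg hz.le _
      have p4 : 0 ≤ ∏ i, (1 + ‖w i‖ ^ 2) ^ (-a + (n : ℝ)) :=
        Finset.prod_nonneg fun _ _ => Real.rpow_nonneg (by positivity) _
      rw [ENNReal.ofReal_mul p2, ENNReal.ofReal_mul (mul_nonneg p1 p2), ENNReal.ofReal_mul p1,
        ENNReal.ofReal_mul p3]
      ring
    simp_rw [e5]
    rw [lintegral_const_mul' _ _ hct', ← mul_assoc]
    congr 1
    -- join the variables
    set f : (Fin (n + 1) → ℂ) → ℝ≥0∞ := fun z => G (Matrix.diagonal z) *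
      wgt (-a + (n + 1 : ℕ) - 1) z with hf
    have hd : Measurable fun z : Fin (n + 1) → ℂ => G (Matrix.diagonal z) := by
      exact hG.comp (continuous_dia (n := n + 1)).measurable
    have hfm : Measurable f := hd.mul (measurable_wgt _)
    have h8 := mp_cons ℂ n
    rw [← h8.lintegral_comp hfm, Measure.volume_eq_prod]
    exact (lintegral_prod _ (hfm.comp h8.measurable).aemeasurable).symm

theorem dens : S_DENS := by
  intro n
  have hn : (0 : ℝ) ≤ n := Nat.cast_nonneg n
  obtain ⟨c, hc0, hct, h⟩ := dens_aux n (2 * n) (by linarith)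
  have hI : Ig n (n + 0) ≠ 0 ∧ Ig n (n + 0) ≠ ∞ := by
    rw [Ig_eq n _ (by linarith)]
    refine ⟨?_, ENNReal.ofReal_ne_top⟩
    rw [Ne, ENNReal.ofReal_eq_zero, not_le]
    refine Finset.prod_pos fun j _ => ?_
    have hj : (0 : ℝ) ≤ j := Nat.cast_nonneg j
    exact div_pos (Real.Gamma_pos_of_pos (by linarith)) (Real.Gamma_pos_of_pos (by linarith))
  have hp : ENNReal.ofReal ((Real.pi ^ (n * n))⁻¹) ≠ 0 := by
    rw [Ne, ENNReal.ofReal_eq_zero, not_le]; positivity
  refine ⟨ENNReal.ofReal ((Real.pi ^ (n * n))⁻¹) * Ig n (n + 0) * c,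
    mul_ne_zero (mul_ne_zero hp hI.1) hc0,
    ENNReal.mul_ne_top (ENNReal.mul_ne_top ENNReal.ofReal_ne_top hI.2) hct, fun G hG hGc => ?_⟩
  have h1 := red (n := n) 0 (by norm_num) G hG
  have h2 : ∀ x : Mt n n × Mt n n, PG 0 G x = G (Matrix.of x.1 * (Matrix.of x.2)⁻¹) := by
    intro x
    unfold PG
    rw [Real.rpow_zero, ENNReal.ofReal_one, mul_one]
  simp_rw [h2, Real.rpow_zero, ENNReal.ofReal_one, mul_one, add_zero] at h1
  have h3 := h G hG hGc
  rw [h1, add_zero, h3, ← mul_assoc]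
  congr 1
  refine lintegral_congr fun z => ?_
  unfold wgt
  congr 3
  refine Finset.prod_congr rfl fun i _ => ?_
  have e : (-(2 * (n : ℝ)) + n - 1 : ℝ) = -((n + 1 : ℕ) : ℝ) := by push_cast; ring
  rw [e, Real.rpow_neg (by positivity), Real.rpow_natCast]

end

end Pool.Agent.P8H95.FM
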