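import Pool.Agent.P8H95.FM.Dens
import Pool.Agent.K7.H89.GMC.M2

/-!
Project FM, package LNK, part A: complex class functions of the matrix `A B⁻¹`.
-/

set_option autoImplicit false

open MeasureTheory Set Filter Topology Matrix
open scoped ENNReal

namespace Pool.Agent.P8H95.FM

open Pool.Agent.R923.SE Pool.Agent.K7.H95.GMC Pool.Agent.K7.H96.GMC Pool.Agent.P8H98.FM
open Pool.Agent.K7.H89.GMC (qt meas_qt)

noncomputable section

/-- the sigma algebra of the measurable sets which only depend on the characteristic polynomial -/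
def cls (n : ℕ) : MeasurableSpace (Mt n n) where
  MeasurableSet' S := MeasurableSet S ∧ ∀ X X' : Mt n n,
    (Matrix.of X).charpoly = (Matrix.of X').charpoly → (X ∈ S ↔ X' ∈ S)
  measurableSet_empty := ⟨MeasurableSet.empty, fun _ _ _ => Iff.rfl⟩
  measurableSet_compl S hS := ⟨hS.1.compl, fun X X' h => not_congr (hS.2 X X' h)⟩
  measurableSet_iUnion f hf := ⟨MeasurableSet.iUnion fun i => (hf i).1, fun X X' h => by
    simp only [mem_iUnion]
    exact exists_congr fun i => (hf i).2 X X' h⟩

theorem cls_le (n : ℕ) : cls n ≤ (inferInstance : MeasurableSpace (Mt n n)) := fun _ hS => hS.1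

/-- the density of the eigenvalues, a real function -/
def W {n : ℕ} (z : Fin n → ℂ) : ℝ :=
  ‖(Matrix.vandermonde z).det‖ ^ 2 * ∏ i, ((1 + ‖z i‖ ^ 2) ^ (n + 1))⁻¹

theorem W_nonneg {n : ℕ} (z : Fin n → ℂ) : 0 ≤ W z :=
  mul_nonneg (by positivity) (Finset.prod_nonneg fun _ _ => by positivity)

theorem measurable_W {n : ℕ} : Measurable (W : (Fin n → ℂ) → ℝ) := by
  unfold W
  refine (measurable_vdm.norm.pow_const 2).mul ?_
  exact Finset.measurable_prod _ fun i _ => ((by fun_prop : Measurable fun z : Fin n → ℂ =>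
    (1 + ‖z i‖ ^ 2)).pow_const _).inv

/-- the law of the eigenvalues for complex class functions -/
theorem law_cx (hD : S_DENS) (n : ℕ) : ∃ c : ℝ, 0 < c ∧ ∀ F : Mt n n → ℂ, Measurable F →
    (∀ X X' : Mt n n, (Matrix.of X).charpoly = (Matrix.of X').charpoly → F X = F X') →
    (Integrable (fun z : Fin n → ℂ => ((W z : ℝ) : ℂ) * F (dia z)) →
      Integrable (fun x => F (qt x)) (gg n)) ∧
    ∫ x, F (qt x) ∂gg n = (c : ℂ) * ∫ z : Fin n → ℂ, ((W z : ℝ) : ℂ) * F (dia z) := by
  obtain ⟨c, hc0, hct, h⟩ := hD n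
  refine ⟨c.toReal, ENNReal.toReal_pos hc0 hct, fun F hF hFc => ?_⟩
  have hdia : Measurable (dia : (Fin n → ℂ) → Mt n n) := continuous_dia.measurable
  have hWm : Measurable fun z : Fin n → ℂ => ENNReal.ofReal (W z) :=
    ENNReal.measurable_ofReal.comp measurable_W
  set ρ : Measure (Fin n → ℂ) := volume.withDensity fun z => ENNReal.ofReal (W z) with hρ
  set μ₁ : Measure (Mt n n) := (gg n).map qt with hμ₁
  set μ₂ : Measure (Mt n n) := (c • ρ).map dia with hμ₂
  have h1 : ∀ S : Set (Mt n n), MeasurableSet[cls n] S → μ₁ S = μ₂ S := by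
    intro S hS
    have hS1 : MeasurableSet S := hS.1
    have h2 := h (S.indicator fun _ => 1) (measurable_const.indicator hS1) (fun X X' hX => by
      by_cases hX1 : X ∈ S
      · rw [indicator_of_mem hX1, indicator_of_mem ((hS.2 X X' hX).1 hX1)]
      · rw [indicator_of_notMem hX1, indicator_of_notMem fun h => hX1 ((hS.2 X X' hX).2 h)])
    have e1 : μ₁ S = ∫⁻ x, S.indicator (fun _ => 1) (Matrix.of x.1 * (Matrix.of x.2)⁻¹) ∂gg n := by
      have e0 : μ₁ S = ∫⁻ X, S.indicator (fun _ => 1) X ∂μ₁ := by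
        rw [lintegral_indicator hS1]; simp
      rw [e0, hμ₁, lintegral_map (measurable_const.indicator hS1) meas_qt]
      rfl
    have e2 : μ₂ S = c * ∫⁻ z : Fin n → ℂ, S.indicator (fun _ => (1 : ℝ≥0∞)) (dia z) *
        ENNReal.ofReal (W z) := by
      have e0 : μ₂ S = ∫⁻ X, S.indicator (fun _ => (1 : ℝ≥0∞)) X ∂μ₂ := by
        rw [lintegral_indicator hS1]; simp
      have hm : Measurable fun z : Fin n → ℂ => S.indicator (fun _ => (1 : ℝ≥0∞)) (dia z) :=
        (measurable_const.indicator hS1).comp hdia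
      rw [e0, hμ₂, lintegral_map (measurable_const.indicator hS1) hdia, lintegral_smul_measure,
        hρ, lintegral_withDensity_eq_lintegral_mul _ hWm hm, smul_eq_mul]
      congr 1
      refine lintegral_congr fun z => ?_
      rw [Pi.mul_apply, mul_comm]
    rw [e1, e2, h2]
    rfl
  have : IsProbabilityMeasure μ₁ := Measure.isProbabilityMeasure_map meas_qt.aemeasurable
  have h3 : μ₁.trim (cls_le n) = μ₂.trim (cls_le n) := by
    refine @Measure.ext _ (cls n) _ _ fun S hS => ?_
    rw [trim_measurableSet_eq (cls_le n) hS, trim_measurableSet_eq (cls_le n) hS, h1 S hS]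
  have hFm : Measurable[cls n] F := by
    intro T hT
    refine ⟨hF hT, fun X X' hX => ?_⟩
    simp only [mem_preimage, hFc X X' hX]
  have hFs : StronglyMeasurable[cls n] F := hFm.stronglyMeasurable
  have h4 : ∫ X, F X ∂μ₁ = ∫ X, F X ∂μ₂ := by
    rw [integral_trim (cls_le n) hFs, integral_trim (cls_le n) hFs, h3]
  have h5 : ∫ X, F X ∂μ₁ = ∫ x, F (qt x) ∂gg n :=
    integral_map meas_qt.aemeasurable hF.aestronglyMeasurable
  have h6 : ∫ X, F X ∂μ₂ = ((c.toReal : ℝ) : ℂ) * ∫ z : Fin n → ℂ, ((W z : ℝ) : ℂ) * F (dia z) := by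
    rw [hμ₂, integral_map hdia.aemeasurable hF.aestronglyMeasurable, integral_smul_measure, hρ,
      integral_withDensity_eq_integral_toReal_smul hWm
        (Eventually.of_forall fun z => ENNReal.ofReal_lt_top)]
    rw [Complex.real_smul]
    congr 1
    refine integral_congr_ae (Eventually.of_forall fun z => ?_)
    simp only [ENNReal.toReal_ofReal (W_nonneg z), Complex.real_smul]
  refine ⟨fun hi => ?_, by rw [← h5, h4, h6]⟩
  have h7 : Integrable F μ₂ := by
    rw [hμ₂, integrable_map_measure hF.aestronglyMeasurable hdia.aemeasurable]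
    refine Integrable.smul_measure ?_ hct
    rw [hρ, integrable_withDensity_iff_integrable_smul' hWm
      (Eventually.of_forall fun z => ENNReal.ofReal_lt_top)]
    refine hi.congr (Eventually.of_forall fun z => ?_)
    simp only [ENNReal.toReal_ofReal (W_nonneg z), Complex.real_smul, Function.comp]
  have h8 : Integrable F μ₁ := by
    refine integrable_of_integrable_trim (cls_le n) ?_
    rw [h3]
    exact h7.trim (cls_le n) hFs
  exact (integrable_map_measure hF.aestronglyMeasurable meas_qt.aemeasurable).1 h8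

end

end Pool.Agent.P8H95.FM
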