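import Pool.Agent.P8H95.FM.Ratio
import Pool.Agent.P8H95.FM.Andr
import Pool.Agent.P8H95.FM.LnkA

/-!
Project FM, package LNK, part D: Toeplitz determinants of functions of the ratio.
-/

set_option autoImplicit false

open MeasureTheory Set Filter Topology
open scoped ENNReal ComplexConjugate

namespace Pool.Agent.P8H95.FM

open Pool.Agent.R923.SE Pool.Agent.K7.H96.GMC Pool.Agent.P8H98.FM
open Pool.Agent.K7.H95.GMC hiding sg

noncomputable section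

/-- the norming constants -/
def sk (n : ℕ) (k : Fin n) : ℂ := ((√((n : ℝ) * ((n - 1).choose (k : ℕ) : ℝ)) : ℝ) : ℂ)

theorem sk_ne (n : ℕ) (k : Fin n) : sk n k ≠ 0 := by
  unfold sk
  have h1 : 0 < (n : ℝ) := by exact_mod_cast (Nat.zero_lt_of_lt k.2)
  have h2 : 0 < ((n - 1).choose (k : ℕ) : ℝ) := by
    exact_mod_cast Nat.choose_pos (by omega)
  have : 0 < √((n : ℝ) * ((n - 1).choose (k : ℕ) : ℝ)) := Real.sqrt_pos.2 (by positivity)
  exact_mod_cast this.ne'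

/-- the monomials in the ratio, normalised -/
def bz (n : ℕ) (k l : Fin n) (z : ℂ) : ℂ :=
  ((((1 + ‖z‖ ^ 2) ^ (n - 1))⁻¹ : ℝ) : ℂ) * (z ^ (k : ℕ) * conj (z ^ (l : ℕ)))

theorem measurable_bz (n : ℕ) (k l : Fin n) : Measurable (bz n k l) := by
  unfold bz
  refine Measurable.mul ?_ ?_
  · refine Complex.measurable_ofReal.comp ?_
    exact ((by fun_prop : Measurable fun z : ℂ => (1 + ‖z‖ ^ 2) ^ (n - 1))).inv
  · exact (by fun_prop : Continuous fun z : ℂ => z ^ (k : ℕ) * conj (z ^ (l : ℕ))).measurable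

theorem bz_le (n : ℕ) (k l : Fin n) (z : ℂ) : ‖bz n k l z‖ ≤ 1 := by
  unfold bz
  have h0 : (0 : ℝ) < (1 + ‖z‖ ^ 2) ^ (n - 1) := by positivity
  rw [norm_mul, norm_mul, RCLike.norm_conj, norm_pow, norm_pow, ← pow_add, Complex.norm_real,
    Real.norm_of_nonneg (inv_pos.2 h0).le, inv_mul_le_iff₀ h0, mul_one]
  set r : ℝ := √(1 + ‖z‖ ^ 2) with hr
  have h1 : r ^ 2 = 1 + ‖z‖ ^ 2 := Real.sq_sqrt (by positivity)
  have h2 : 1 ≤ r := by
    rw [hr]; exact Real.one_le_sqrt.2 (by nlinarith [norm_nonneg z])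
  have h3 : ‖z‖ ≤ r := by
    rw [hr]; exact Real.le_sqrt_of_sq_le (by linarith)
  calc ‖z‖ ^ ((k : ℕ) + (l : ℕ)) ≤ r ^ ((k : ℕ) + (l : ℕ)) := by gcongr
    _ ≤ r ^ (2 * (n - 1)) := pow_le_pow_right₀ h2 (by omega)
    _ = (1 + ‖z‖ ^ 2) ^ (n - 1) := by rw [pow_mul, h1]

theorem ph_ratio (n : ℕ) (k l : Fin n) {v : Om} (hv : v.2 ≠ 0) :
    ph n v k * conj (ph n v l) = sk n k * sk n l * bz n k l (v.1 / v.2) := by
  set z : ℂ := v.1 / v.2 with hz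
  have h1 : v.1 = z * v.2 := by rw [hz]; field_simp
  have hk : (k : ℕ) + (n - 1 - (k : ℕ)) = n - 1 := by omega
  have hl : (l : ℕ) + (n - 1 - (l : ℕ)) = n - 1 := by omega
  have h2 : nn2 v = ‖v.2‖ ^ 2 * (1 + ‖z‖ ^ 2) := by
    unfold nn2
    rw [h1, norm_mul]; ring
  have hv2 : 0 < ‖v.2‖ := norm_pos_iff.2 hv
  have hz1 : (0 : ℝ) < 1 + ‖z‖ ^ 2 := by positivity
  have h3 : 0 < nn2 v := by rw [h2]; positivity
  have h4 : ((√(nn2 v) ^ (n - 1) : ℝ) : ℂ) * ((√(nn2 v) ^ (n - 1) : ℝ) : ℂ) =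
      (((‖v.2‖ ^ 2) ^ (n - 1) * (1 + ‖z‖ ^ 2) ^ (n - 1) : ℝ) : ℂ) := by
    rw [← Complex.ofReal_mul, ← mul_pow, ← mul_pow, Real.mul_self_sqrt h3.le, h2]
  have h5 : v.2 ^ (n - 1) * conj (v.2 ^ (n - 1)) = (((‖v.2‖ ^ 2) ^ (n - 1) : ℝ) : ℂ) := by
    rw [map_pow, ← mul_pow, Complex.mul_conj, Complex.normSq_eq_norm_sq]
    push_cast
    rfl
  have e1 : v.1 ^ (k : ℕ) * v.2 ^ (n - 1 - (k : ℕ)) = z ^ (k : ℕ) * v.2 ^ (n - 1) := by
    rw [h1, mul_pow, mul_assoc, ← pow_add, hk]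
  have e2 : v.1 ^ (l : ℕ) * v.2 ^ (n - 1 - (l : ℕ)) = z ^ (l : ℕ) * v.2 ^ (n - 1) := by
    rw [h1, mul_pow, mul_assoc, ← pow_add, hl]
  have hsl : conj (sk n l) = sk n l := Complex.conj_ofReal _
  have e3 : ph n v k = sk n k * (z ^ (k : ℕ) * v.2 ^ (n - 1)) / ((√(nn2 v) ^ (n - 1) : ℝ) : ℂ) := by
    unfold ph sk
    rw [mul_assoc, e1]
  have e4 : conj (ph n v l) = sk n l * (conj (z ^ (l : ℕ)) * conj (v.2 ^ (n - 1))) /
      ((√(nn2 v) ^ (n - 1) : ℝ) : ℂ) := by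
    have : ph n v l = sk n l * (z ^ (l : ℕ) * v.2 ^ (n - 1)) /
        ((√(nn2 v) ^ (n - 1) : ℝ) : ℂ) := by
      unfold ph sk
      rw [mul_assoc, e2]
    rw [this, map_div₀, map_mul, map_mul, hsl, Complex.conj_ofReal]
  rw [e3, e4, div_mul_div_comm, h4]
  unfold bz
  have h6 : (((‖v.2‖ ^ 2) ^ (n - 1) : ℝ) : ℂ) ≠ 0 := by
    have : (0 : ℝ) < (‖v.2‖ ^ 2) ^ (n - 1) := by positivity
    exact_mod_cast this.ne'
  have h7 : (((1 + ‖z‖ ^ 2) ^ (n - 1) : ℝ) : ℂ) ≠ 0 := by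
    have : (0 : ℝ) < (1 + ‖z‖ ^ 2) ^ (n - 1) := by positivity
    exact_mod_cast this.ne'
  have h8 : sk n k * (z ^ (k : ℕ) * v.2 ^ (n - 1)) *
      (sk n l * (conj (z ^ (l : ℕ)) * conj (v.2 ^ (n - 1)))) =
      (((‖v.2‖ ^ 2) ^ (n - 1) : ℝ) : ℂ) * (sk n k * sk n l * (z ^ (k : ℕ) * conj (z ^ (l : ℕ)))) := by
    rw [← h5]; ring
  rw [h8, Complex.ofReal_mul, mul_div_mul_left _ _ h6, Complex.ofReal_inv]
  field_simp

/-- the weighted function -/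
def hW (n : ℕ) (h : ℂ → ℂ) (z : ℂ) : ℂ := h z * ((((1 + ‖z‖ ^ 2) ^ (n + 1))⁻¹ : ℝ) : ℂ)

theorem ratio_toeplitz (n : ℕ) (h : ℂ → ℂ) (hm : Measurable h)
    (hi : Integrable (fun v : Om => h (v.1 / v.2)) sg) (k l : Fin n) :
    Integrable (fun z : ℂ => hW n h z * (z ^ (k : ℕ) * conj (z ^ (l : ℕ)))) ∧
    TT n (fun v => h (v.1 / v.2)) k l = (sk n k / (Real.pi : ℂ)) * (sk n l *
      ∫ z : ℂ, hW n h z * (z ^ (k : ℕ) * conj (z ^ (l : ℕ)))) := by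
  have hn : 0 < n := Nat.zero_lt_of_lt k.2
  have hb := measurable_bz n k l
  have hfm : Measurable fun z => h z * bz n k l z := hm.mul hb
  have e1 : ∀ z : ℂ, ((rd z : ℝ) : ℂ) * (h z * bz n k l z) =
      (1 / (Real.pi : ℂ)) * (hW n h z * (z ^ (k : ℕ) * conj (z ^ (l : ℕ)))) := by
    intro z
    have hz1 : (0 : ℝ) < 1 + ‖z‖ ^ 2 := by positivity
    have hz2 : ((1 + ‖z‖ ^ 2 : ℝ) : ℂ) ≠ 0 := by exact_mod_cast hz1.ne'
    have hpi : (Real.pi : ℂ) ≠ 0 := by exact_mod_cast Real.pi_ne_zero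
    unfold rd bz hW
    obtain ⟨m, rfl⟩ : ∃ m, n = m + 1 := ⟨n - 1, by omega⟩
    rw [Nat.add_sub_cancel]
    simp only [Complex.ofReal_div, Complex.ofReal_one, Complex.ofReal_mul, Complex.ofReal_inv,
      Complex.ofReal_pow]
    field_simp
    ring
  have h1 : Integrable (fun v : Om => h (v.1 / v.2) * bz n k l (v.1 / v.2)) sg :=
    hi.mul_bdd (c := 1) (hb.comp measurable_ratio).aestronglyMeasurable
      (Eventually.of_forall fun v => bz_le n k l _)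
  have h2 := (ratio_integrable hfm).1 h1
  simp_rw [e1] at h2
  have hpi : (1 / (Real.pi : ℂ)) ≠ 0 := by
    have : (Real.pi : ℂ) ≠ 0 := by exact_mod_cast Real.pi_ne_zero
    exact div_ne_zero one_ne_zero this
  have h3 : Integrable (fun z : ℂ => hW n h z * (z ^ (k : ℕ) * conj (z ^ (l : ℕ)))) := by
    have := h2.const_mul (1 / (Real.pi : ℂ))⁻¹
    refine this.congr (Eventually.of_forall fun z => ?_)
    simp only
    rw [← mul_assoc, inv_mul_cancel₀ hpi, one_mul]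
  refine ⟨h3, ?_⟩
  unfold TT
  rw [Matrix.of_apply]
  have h4 : ∫ v : Om, h (v.1 / v.2) * (ph n v k * conj (ph n v l)) ∂sg =
      sk n k * sk n l * ∫ v : Om, h (v.1 / v.2) * bz n k l (v.1 / v.2) ∂sg := by
    rw [← integral_const_mul]
    refine integral_congr_ae ?_
    filter_upwards [ae_snd] with v hv
    rw [ph_ratio n k l hv]
    ring
  rw [h4, ratio_integral hfm]
  simp_rw [e1]
  rw [integral_const_mul]
  ring

theorem prodform (n : ℕ) : ∃ K : ℂ, ∀ h : ℂ → ℂ, Measurable h →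
    Integrable (fun v : Om => h (v.1 / v.2)) sg →
    Integrable (fun z : Fin n → ℂ => ((W z : ℝ) : ℂ) * ∏ j, h (z j)) ∧
    ∫ z : Fin n → ℂ, ((W z : ℝ) : ℂ) * ∏ j, h (z j) = K * DD n (fun v => h (v.1 / v.2)) := by
  refine ⟨(n.factorial : ℂ) * ((∏ k, sk n k / (Real.pi : ℂ)) * ∏ k, sk n k)⁻¹, fun h hm hi => ?_⟩
  have hpi : (Real.pi : ℂ) ≠ 0 := by exact_mod_cast Real.pi_ne_zero
  obtain ⟨h1, h2⟩ := andr (volume : Measure ℂ) n (hW n h) (fun k z => z ^ (k : ℕ))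
    (fun k l => (ratio_toeplitz n h hm hi k l).1)
  have e1 : ∀ z : Fin n → ℂ, (∏ j, hW n h (z j)) *
      (((‖(Matrix.of fun i j : Fin n => z i ^ (j : ℕ)).det‖ ^ 2 : ℝ)) : ℂ) =
      ((W z : ℝ) : ℂ) * ∏ j, h (z j) := by
    intro z
    unfold W hW
    have e2 : (Matrix.of fun i j : Fin n => z i ^ (j : ℕ)) = Matrix.vandermonde z := rfl
    rw [e2, Finset.prod_mul_distrib, Complex.ofReal_mul, Complex.ofReal_prod]
    ring
  simp_rw [e1] at h1 h2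
  refine ⟨h1, ?_⟩
  have h3 : ∫ z : Fin n → ℂ, ((W z : ℝ) : ℂ) * ∏ j, h (z j) = (n.factorial : ℂ) *
      (Matrix.of fun k l : Fin n => ∫ z : ℂ, hW n h z * (z ^ (k : ℕ) * conj (z ^ (l : ℕ)))).det := h2
  rw [h3]
  set M : Matrix (Fin n) (Fin n) ℂ := Matrix.of fun k l : Fin n =>
    ∫ z : ℂ, hW n h z * (z ^ (k : ℕ) * conj (z ^ (l : ℕ))) with hM
  have h4 : TT n (fun v => h (v.1 / v.2)) = Matrix.of fun k l => (sk n k / (Real.pi : ℂ)) *
      (Matrix.of fun k l => sk n l * M k l) k l := by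
    ext k l
    rw [(ratio_toeplitz n h hm hi k l).2]
    rfl
  have h5 : DD n (fun v => h (v.1 / v.2)) = ((∏ k, sk n k / (Real.pi : ℂ)) * ∏ k, sk n k) * M.det := by
    unfold DD
    rw [h4, Matrix.det_mul_column, Matrix.det_mul_row, mul_assoc]
  have h6 : (∏ k, sk n k / (Real.pi : ℂ)) * ∏ k, sk n k ≠ 0 :=
    mul_ne_zero (Finset.prod_ne_zero_iff.2 fun k _ => div_ne_zero (sk_ne n k) hpi)
      (Finset.prod_ne_zero_iff.2 fun k _ => sk_ne n k)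
  rw [h5, mul_assoc, inv_mul_cancel_left₀ h6]

end

end Pool.Agent.P8H95.FM
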