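import Pool.Agent.P8H95.FM.Ratio
import Pool.Agent.K7.H89.GMC.GEO

/-!
Project FM, package LNK, part F: integrability of the products of powers of the distances.
-/

set_option autoImplicit false

open MeasureTheory Set Filter Topology
open scoped ENNReal ComplexConjugate

namespace Pool.Agent.P8H95.FM

open Pool.Agent.R923.SE Pool.Agent.K7.H96.GMC Pool.Agent.P8H98.FM
open Pool.Agent.K7.H95.GMC hiding sg
open Pool.Agent.K7.H89.GMC (s_GEO)

noncomputable section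

/-- Lagrange's identity -/
theorem lagr (v w : Om) : ‖hp v w‖ ^ 2 + ‖v.1 * w.2 - v.2 * w.1‖ ^ 2 = nn2 v * nn2 w := by
  unfold hp nn2
  simp only [← Complex.normSq_eq_norm_sq, Complex.normSq_apply, Complex.add_re, Complex.add_im,
    Complex.sub_re, Complex.sub_im, Complex.mul_re, Complex.mul_im, Complex.conj_re,
    Complex.conj_im]
  ring

theorem nn2_sp (u : S2) : nn2 (sp u) = 1 := by
  unfold nn2 sp
  simp only [norm_neg]
  rw [add_comm]
  exact s_GEO.2.2.1 u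

theorem d2_sp (u : S2) {v : Om} (hv : nn2 v ≠ 0) :
    d2 v (sp u) = ‖sa u * v.1 + sb u * v.2‖ ^ 2 / nn2 v := by
  have h := lagr v (sp u)
  rw [nn2_sp, mul_one] at h
  unfold d2
  rw [nn2_sp, mul_one, eq_div_iff hv, sub_mul, one_mul, div_mul_cancel₀ _ hv, ← h]
  have e : v.1 * (sp u).2 - v.2 * (sp u).1 = sa u * v.1 + sb u * v.2 := by
    unfold sp
    simp only
    ring
  rw [e]
  ring

theorem d2_sp_sp {u v : S2} (h : u ≠ v) : 0 < d2 (sp u) (sp v) := by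
  unfold d2
  rw [nn2_sp, nn2_sp, mul_one, div_one]
  have h1 := s_GEO.2.2.2.1 u v
  have h2 : ‖hp (sp u) (sp v)‖ ^ 2 =
      ‖sa v * conj (sa u) + sb v * conj (sb u)‖ ^ 2 := by
    have e : hp (sp u) (sp v) = conj (sa v * conj (sa u) + sb v * conj (sb u)) := by
      unfold hp sp
      simp only [map_add, map_mul, map_neg, Complex.conj_conj]
      ring
    rw [e, RCLike.norm_conj]
  rw [h2, h1]
  have h3 : 0 < ‖(u : R3) - (v : R3)‖ := by
    rw [norm_pos_iff, sub_ne_zero]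
    exact fun h' => h (Subtype.ext h')
  nlinarith

theorem ker_law (hK : S_KER) : ∀ w : Om, nn2 w ≠ 0 → ∀ f : ℝ → ℝ≥0∞, Measurable f →
    ∫⁻ v, f (d2 v w) ∂sg = ∫⁻ t in Set.Icc (0 : ℝ) 1, f t := hK.2.2.2.2.2.2.2.2

theorem ker_tri (hK : S_KER) : ∀ v w u, nn2 v ≠ 0 → nn2 w ≠ 0 → nn2 u ≠ 0 →
    √(d2 v w) ≤ √(d2 v u) + √(d2 u w) := hK.2.2.2.2.2.2.2.1

theorem ker_bd (hK : S_KER) : ∀ v w, 0 ≤ d2 v w ∧ d2 v w ≤ 1 ∧ d2 v w = d2 w v :=
  hK.2.2.2.2.2.2.1

theorem ker_m0 (hK : S_KER) : Measurable fun p : Om × Om => d2 p.1 p.2 := hK.2.2.2.2.2.1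

theorem ker_ne (hK : S_KER) : ∀ᵐ v ∂sg, nn2 v ≠ 0 := hK.2.2.2.2.1

theorem ker_meas (hK : S_KER) (p : Om) : Measurable fun v : Om => d2 v p := by
  have h := ker_m0 hK
  have h2 : Measurable fun v : Om => ((v, p) : Om × Om) := measurable_prodMk_right
  have h3 := Measurable.comp h h2
  exact h3

theorem int_pow (hK : S_KER) {p : Om} (hp : nn2 p ≠ 0) {a : ℝ} (ha : -1 < a) :
    Integrable (fun v => d2 v p ^ a) sg := by
  have hm1 := ker_meas hK p
  have hi : IntegrableOn (fun t : ℝ => t ^ a) (Icc 0 1) := by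
    rw [integrableOn_Icc_iff_integrableOn_Ioc, ← intervalIntegrable_iff_integrableOn_Ioc_of_le
      zero_le_one]
    exact intervalIntegral.intervalIntegrable_rpow' ha
  have h1 : ∫⁻ v, ENNReal.ofReal (d2 v p ^ a) ∂sg = ∫⁻ t in Icc (0 : ℝ) 1, ENNReal.ofReal (t ^ a) :=
    ker_law hK p hp (fun t => ENNReal.ofReal (t ^ a))
      (ENNReal.measurable_ofReal.comp (measurable_id.pow_const a))
  refine ⟨(hm1.pow_const a).aestronglyMeasurable, ?_⟩
  rw [hasFiniteIntegral_iff_ofReal (Eventually.of_forall fun v =>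
    Real.rpow_nonneg (ker_bd hK v p).1 _), h1]
  exact hi.lintegral_lt_top

theorem ae_pos (hK : S_KER) {p : Om} (hp : nn2 p ≠ 0) : ∀ᵐ v ∂sg, 0 < d2 v p := by
  have hm1 := ker_meas hK p
  have hmi : Measurable (Set.indicator ({0} : Set ℝ) fun _ => (1 : ℝ≥0∞)) :=
    measurable_const.indicator (measurableSet_singleton _)
  have h1 := ker_law hK p hp (Set.indicator {0} fun _ => 1) hmi
  have h2 : ∫⁻ t in Icc (0 : ℝ) 1, Set.indicator {0} (fun _ => (1 : ℝ≥0∞)) t = 0 := by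
    rw [lintegral_indicator (measurableSet_singleton _)]
    simp
  have h3 : Measurable fun v : Om => Set.indicator ({0} : Set ℝ) (fun _ => (1 : ℝ≥0∞)) (d2 v p) :=
    Measurable.comp hmi hm1
  rw [h2, lintegral_eq_zero_iff h3] at h1
  filter_upwards [h1] with v hv
  refine lt_of_le_of_ne (ker_bd hK v p).1 fun h => ?_
  simp only [Pi.zero_apply] at hv
  rw [Set.indicator_of_mem (by rw [← h]; exact mem_singleton _)] at hv
  exact one_ne_zero hv

theorem bound_one {δ x a : ℝ} (hδ : 0 < δ) (_ : δ ≤ 1) (hx : δ ≤ x) (hx1 : x ≤ 1) :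
    x ^ a ≤ δ ^ (-|a|) := by
  have hx0 : 0 < x := lt_of_lt_of_le hδ hx
  calc x ^ a ≤ x ^ (-|a|) := Real.rpow_le_rpow_of_exponent_ge hx0 hx1 (neg_abs_le a)
    _ ≤ δ ^ (-|a|) := Real.rpow_le_rpow_of_nonpos hδ hx (neg_nonpos.2 (abs_nonneg a))

theorem prod_bound {ι : Type*} [Fintype ι] [DecidableEq ι] (a : ι → ℝ) {δ : ℝ} (hδ : 0 < δ)
    (hδ1 : δ ≤ 1) (x : ι → ℝ) (hx : ∀ i, 0 < x i) (hx1 : ∀ i, x i ≤ 1)
    (hsep : ∀ i j, i ≠ j → x i < δ → δ ≤ x j) :
    ∏ i, x i ^ a i ≤ (∏ i, δ ^ (-|a i|)) * (1 + ∑ i, x i ^ a i) := by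
  have h1 : ∀ i, 1 ≤ δ ^ (-|a i|) := fun i =>
    Real.one_le_rpow_of_pos_of_le_one_of_nonpos hδ hδ1 (neg_nonpos.2 (abs_nonneg _))
  have h1' : ∀ s : Finset ι, 1 ≤ ∏ i ∈ s, δ ^ (-|a i|) := fun s =>
    Finset.prod_induction _ (fun t => (1 : ℝ) ≤ t)
      (fun _ _ h h' => one_le_mul_of_one_le_of_one_le h h') le_rfl (fun i _ => h1 i)
  have hpos : ∀ i, 0 < x i ^ a i := fun i => Real.rpow_pos_of_pos (hx i) _
  have hsum : 0 ≤ ∑ i, x i ^ a i := Finset.sum_nonneg fun i _ => (hpos i).le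
  by_cases hc : ∃ i0, x i0 < δ
  · obtain ⟨i0, hi0⟩ := hc
    rw [← Finset.mul_prod_erase Finset.univ _ (Finset.mem_univ i0)]
    have h2 : ∏ i ∈ Finset.univ.erase i0, x i ^ a i ≤ ∏ i ∈ Finset.univ.erase i0, δ ^ (-|a i|) := by
      refine Finset.prod_le_prod (fun i _ => (hpos i).le) fun i hi => ?_
      exact bound_one hδ hδ1 (hsep i0 i (Finset.ne_of_mem_erase hi).symm hi0) (hx1 i)
    have h3 : ∏ i ∈ Finset.univ.erase i0, δ ^ (-|a i|) ≤ ∏ i, δ ^ (-|a i|) := by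
      rw [← Finset.mul_prod_erase Finset.univ (fun i => δ ^ (-|a i|)) (Finset.mem_univ i0)]
      exact le_mul_of_one_le_left (zero_le_one.trans (h1' _)) (h1 i0)
    have h4 : x i0 ^ a i0 ≤ 1 + ∑ i, x i ^ a i := by
      have := Finset.single_le_sum (f := fun i => x i ^ a i) (fun i _ => (hpos i).le)
        (Finset.mem_univ i0)
      linarith
    calc x i0 ^ a i0 * ∏ i ∈ Finset.univ.erase i0, x i ^ a i
        ≤ (1 + ∑ i, x i ^ a i) * ∏ i, δ ^ (-|a i|) :=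
          mul_le_mul h4 (h2.trans h3) (Finset.prod_nonneg fun i _ => (hpos i).le) (by positivity)
      _ = _ := mul_comm _ _
  · push Not at hc
    have h2 : ∏ i, x i ^ a i ≤ ∏ i, δ ^ (-|a i|) :=
      Finset.prod_le_prod (fun i _ => (hpos i).le) fun i _ => bound_one hδ hδ1 (hc i) (hx1 i)
    refine h2.trans ?_
    exact le_mul_of_one_le_right (zero_le_one.trans (h1' _)) (by linarith)

theorem int_prod (hK : S_KER) {k : ℕ} (P : Fin k → Om) (hP : ∀ i, nn2 (P i) ≠ 0)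
    (hsep : ∀ i j, i ≠ j → 0 < d2 (P i) (P j)) (s : Fin k → ℂ) (hs : ∀ i, -1 < (s i).re)
    (f : Om → ℂ) (hf : AEStronglyMeasurable f sg)
    (hfe : ∀ᵐ v ∂sg, f v = ∏ i, ((d2 v (P i) : ℝ) : ℂ) ^ s i) : Integrable f sg := by
  have hne := ker_ne hK
  have hb := ker_bd hK
  have htri := ker_tri hK
  -- the separation
  obtain ⟨ρ, hρ, hρ1, hρ2⟩ : ∃ ρ : ℝ, 0 < ρ ∧ ρ ≤ 1 ∧ ∀ i j, i ≠ j → ρ ≤ √(d2 (P i) (P j)) := by
    classical
    have h0 : ∀ s : Finset (Fin k × Fin k), ∃ ρ : ℝ, 0 < ρ ∧ ρ ≤ 1 ∧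
        ∀ p ∈ s, p.1 ≠ p.2 → ρ ≤ √(d2 (P p.1) (P p.2)) := by
      intro s
      induction s using Finset.induction_on with
      | empty => exact ⟨1, one_pos, le_rfl, fun p hp => absurd hp (Finset.notMem_empty _)⟩
      | insert p s _ ih =>
        obtain ⟨ρ, h1, h2, h3⟩ := ih
        by_cases hp : p.1 = p.2
        · refine ⟨ρ, h1, h2, fun q hq hne => ?_⟩
          rcases Finset.mem_insert.1 hq with rfl | hq
          · exact absurd hp hne
          · exact h3 q hq hne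
        · refine ⟨min ρ √(d2 (P p.1) (P p.2)), lt_min h1 (Real.sqrt_pos.2 (hsep _ _ hp)),
            (min_le_left _ _).trans h2, fun q hq hne => ?_⟩
          rcases Finset.mem_insert.1 hq with rfl | hq
          · exact min_le_right _ _
          · exact (min_le_left _ _).trans (h3 q hq hne)
    obtain ⟨ρ, h1, h2, h3⟩ := h0 Finset.univ
    exact ⟨ρ, h1, h2, fun i j hij => h3 (i, j) (Finset.mem_univ _) hij⟩
  set δ : ℝ := (ρ / 2) ^ 2 with hδ
  have hδ0 : 0 < δ := by positivity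
  have hδ1 : δ ≤ 1 := by rw [hδ]; nlinarith
  have hsq : √δ = ρ / 2 := by rw [hδ]; exact Real.sqrt_sq (by positivity)
  have hbd : Integrable (fun v => (∏ i, δ ^ (-|(s i).re|)) * (1 + ∑ i, d2 v (P i) ^ (s i).re)) sg := by
    refine Integrable.const_mul ?_ _
    exact (integrable_const _).add (integrable_finsetSum _ fun i _ => int_pow hK (hP i) (hs i))
  refine hbd.mono' hf ?_
  have hpos : ∀ᵐ v ∂sg, ∀ i, 0 < d2 v (P i) := ae_all_iff.2 fun i => ae_pos hK (hP i)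
  filter_upwards [hfe, hpos, hne] with v hv hp hn
  rw [hv, norm_prod]
  have e : ∀ i, ‖((d2 v (P i) : ℝ) : ℂ) ^ s i‖ = d2 v (P i) ^ (s i).re :=
    fun i => Complex.norm_cpow_eq_rpow_re_of_pos (hp i) _
  simp_rw [e]
  refine prod_bound (fun i => (s i).re) hδ0 hδ1 (fun i => d2 v (P i)) hp
    (fun i => (hb _ _).2.1) fun i j hij hi => ?_
  by_contra hj
  push Not at hj
  have h1 := htri (P i) (P j) v (hP i) (hP j) hn
  have h2 := hρ2 i j hij
  have h3 : √(d2 (P i) v) < ρ / 2 := by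
    rw [← hsq, (hb (P i) v).2.2]
    exact Real.sqrt_lt_sqrt (hb _ _).1 hi
  have h4 : √(d2 v (P j)) < ρ / 2 := by
    rw [← hsq]
    exact Real.sqrt_lt_sqrt (hb _ _).1 hj
  linarith

end

end Pool.Agent.P8H95.FM
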