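import Pool.Agent.P8H95.FM.Ent
import Pool.Agent.P8H95.FM.Intg

/-!
Project FM, package LNK: the exponential moments of the linear statistics are Toeplitz
determinants.
-/

set_option autoImplicit false

open MeasureTheory Set Filter Topology
open scoped ENNReal ComplexConjugate

namespace Pool.Agent.P8H95.FM

open Pool.Agent.R923.SE Pool.Agent.K7.H96.GMC Pool.Agent.P8H98.FM
open Pool.Agent.K7.H95.GMC hiding sg
open Pool.Agent.K7.H89.GMC (qt meas_qt dtl y1 dtl_eq meas_dtl ratio wt_eq dn ae_dt2 ae_comb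
  comb_zero y1_pos)

noncomputable section

variable {n k : ℕ}

/-- powers of products -/
theorem cpow_prod {ι : Type*} (s : Finset ι) (x : ι → ℝ) (hx : ∀ i, 0 ≤ x i) (r : ℂ) :
    ((∏ i ∈ s, x i : ℝ) : ℂ) ^ r = ∏ i ∈ s, ((x i : ℝ) : ℂ) ^ r := by
  classical
  induction s using Finset.induction_on with
  | empty => simp
  | insert i s hi ih =>
    rw [Finset.prod_insert hi, Finset.prod_insert hi, Complex.ofReal_mul,
      Complex.mul_cpow_ofReal_nonneg (hx i) (Finset.prod_nonneg fun j _ => hx j), ih]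

/-- the one variable factor -/
def hh (P : Fin k → S2) (γ : Fin k → ℂ) (w : ℂ) : ℂ :=
  ∏ i, ((‖sa (P i) * w + sb (P i)‖ ^ 2 / (1 + ‖w‖ ^ 2) : ℝ) : ℂ) ^ (γ i / 2)

/-- the class function -/
def FF (P : Fin k → S2) (γ : Fin k → ℂ) (X : Mt n n) : ℂ :=
  ∏ i, ((‖dtl (sa (P i)) (sb (P i)) X‖ ^ 2 / y1 X : ℝ) : ℂ) ^ (γ i / 2)

theorem measurable_hh (P : Fin k → S2) (γ : Fin k → ℂ) : Measurable (hh P γ) := by
  unfold hh
  refine Finset.measurable_prod _ fun i _ => ?_
  have h : Measurable fun w : ℂ => ‖sa (P i) * w + sb (P i)‖ ^ 2 / (1 + ‖w‖ ^ 2) :=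
    Measurable.div (by fun_prop) (by fun_prop)
  exact (Complex.measurable_ofReal.comp h).pow_const _

theorem measurable_FF (P : Fin k → S2) (γ : Fin k → ℂ) : Measurable (FF P γ : Mt n n → ℂ) := by
  unfold FF
  refine Finset.measurable_prod _ fun i _ => ?_
  have h1 : Measurable fun X : Mt n n => (X, P i) := measurable_prodMk_right
  have h0 := meas_dtl (n := n)
  have h2 : Measurable fun X : Mt n n => dtl (sa (P i)) (sb (P i)) X := by
    generalize hg : (fun z : Mt n n × S2 => dtl (sa z.2) (sb z.2) z.1) = g at h0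
    have h4 := h0.comp h1
    have h5 : (fun X : Mt n n => dtl (sa (P i)) (sb (P i)) X) = g ∘ fun X => (X, P i) := by
      rw [← hg]; rfl
    rw [h5]
    exact h4
  have h3 : Measurable fun X : Mt n n => y1 X := measurable_yy
  have h : Measurable fun X : Mt n n => ‖dtl (sa (P i)) (sb (P i)) X‖ ^ 2 / y1 X :=
    (h2.norm.pow_const 2).div h3
  exact (Complex.measurable_ofReal.comp h).pow_const _

theorem FF_class (P : Fin k → S2) (γ : Fin k → ℂ) (X X' : Mt n n)
    (h : (Matrix.of X).charpoly = (Matrix.of X').charpoly) : FF P γ X = FF P γ X' := by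
  unfold FF
  refine Finset.prod_congr rfl fun i _ => ?_
  rw [dtl_eq, dtl_eq, y1, y1, yy, yy, h]

theorem roots_dia (z : Fin n → ℂ) : (Matrix.of (dia z)).charpoly.roots =
    Multiset.map z Finset.univ.val := by
  have h1 : (Matrix.of (dia z)).charpoly = ∏ i, (Polynomial.X - Polynomial.C (z i)) :=
    charpoly_dia z
  rw [h1, Polynomial.roots_prod _ _ (Finset.prod_ne_zero_iff.2 fun i _ =>
    Polynomial.X_sub_C_ne_zero _)]
  simp only [Polynomial.roots_X_sub_C]
  rw [Multiset.bind_singleton]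

theorem FF_dia (P : Fin k → S2) (γ : Fin k → ℂ) (z : Fin n → ℂ) :
    FF P γ (dia z) = ∏ j, hh P γ (z j) := by
  unfold FF hh
  rw [Finset.prod_comm]
  refine Finset.prod_congr rfl fun i _ => ?_
  rw [← cpow_prod _ _ (fun j => by positivity)]
  congr 2
  rw [dtl_eq, y1, yy, roots_dia, Multiset.map_map, Multiset.map_map]
  have e1 : (Multiset.map ((fun w => sa (P i) * w + sb (P i)) ∘ z) Finset.univ.val).prod =
      ∏ j, (sa (P i) * z j + sb (P i)) := rfl
  have e2 : (Multiset.map ((fun w : ℂ => 1 + ‖w‖ ^ 2) ∘ z) Finset.univ.val).prod =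
      ∏ j, (1 + ‖z j‖ ^ 2) := rfl
  rw [e1, e2, norm_prod, ← Finset.prod_pow, Finset.prod_div_distrib]

theorem hh_ratio (P : Fin k → S2) (γ : Fin k → ℂ) {v : Om} (hv : v.2 ≠ 0) :
    hh P γ (v.1 / v.2) = ∏ i, ((d2 v (sp (P i)) : ℝ) : ℂ) ^ (γ i / 2) := by
  have hv2 : 0 < ‖v.2‖ := norm_pos_iff.2 hv
  have hn : nn2 v ≠ 0 := by unfold nn2; positivity
  unfold hh
  refine Finset.prod_congr rfl fun i _ => ?_
  rw [d2_sp _ hn]
  congr 2
  have e1 : sa (P i) * v.1 + sb (P i) * v.2 = v.2 * (sa (P i) * (v.1 / v.2) + sb (P i)) := by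
    field_simp
  have e2 : nn2 v = ‖v.2‖ ^ 2 * (1 + ‖v.1 / v.2‖ ^ 2) := by
    unfold nn2
    rw [norm_div]
    field_simp
    ring
  rw [e1, e2, norm_mul, mul_pow, mul_div_mul_left _ _ (by positivity)]

theorem FF_exp (P : Fin k → S2) (γ : Fin k → ℂ) {x : Mt n n × Mt n n}
    (h : ∀ i, ∀ w ∈ ev x, P i ≠ Tinv w) :
    FF P γ (qt x) = Complex.exp (∑ i, γ i * ((Lg x (P i) : ℝ) : ℂ)) := by
  unfold FF
  rw [Complex.exp_sum]
  refine Finset.prod_congr rfl fun i _ => ?_
  have h1 := wt_eq (γ := 2) (h i)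
  rw [wt, dn, show (2 / 2 : ℝ) = 1 by norm_num, Real.rpow_one] at h1
  rw [← h1, Complex.ofReal_exp, Complex.cpow_def_of_ne_zero (Complex.exp_ne_zero _),
    ← Complex.ofReal_exp, ← Complex.ofReal_log (Real.exp_pos _).le, Real.log_exp]
  congr 1
  push_cast
  ring

theorem ae_FF (P : Fin k → S2) (γ : Fin k → ℂ) : ∀ᵐ x ∂gg n,
    FF P γ (qt x) = Complex.exp (∑ i, γ i * ((Lg x (P i) : ℝ) : ℂ)) := by
  have h2 : ∀ᵐ x ∂gg n, ∀ i : Fin k, dt (sa (P i) • x.1 + sb (P i) • x.2) ≠ 0 :=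
    ae_all_iff.2 fun i => ae_comb (P i)
  filter_upwards [ae_dt2, h2] with x hx hu
  exact FF_exp P γ fun i w hw h => hu i (comb_zero hx hw h)

theorem lnk (hD : S_DENS) (hK : S_KER) (hO : S_ONB) : S_LNK := by
  intro n k P γ hP hγ
  obtain ⟨c, hc, hcx⟩ := law_cx hD n
  obtain ⟨K, hKK⟩ := prodform n
  -- the constant
  have hcK : (c : ℂ) * K = 1 := by
    obtain ⟨-, h1⟩ := hcx (fun _ => 1) measurable_const (fun _ _ _ => rfl)
    obtain ⟨-, h2⟩ := hKK (fun _ => 1) measurable_const (integrable_const _)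
    have h3 : DD n (fun _ : Om => (1 : ℂ)) = 1 := by
      unfold DD
      rw [hO.1 n, Matrix.det_one]
    simp only [Finset.prod_const_one] at h2
    rw [h3, mul_one] at h2
    rw [h2] at h1
    rw [← h1]
    simp
  obtain ⟨h1, h2⟩ := hcx (FF P γ) (measurable_FF P γ) (FF_class P γ)
  have hI : Integrable (fun v : Om => hh P γ (v.1 / v.2)) sg := by
    refine int_prod hK (fun i => sp (P i)) (fun i => by rw [nn2_sp]; exact one_ne_zero)
      (fun i j hij => d2_sp_sp fun h => hij (hP h)) (fun i => γ i / 2) (fun i => ?_) _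
      ((measurable_hh P γ).comp measurable_ratio).aestronglyMeasurable ?_
    · have : (γ i / 2).re = (γ i).re / 2 := by simp
      rw [this]
      linarith [hγ i]
    · filter_upwards [ae_snd] with v hv
      exact hh_ratio P γ hv
  obtain ⟨h3, h4⟩ := hKK (hh P γ) (measurable_hh P γ) hI
  simp_rw [FF_dia] at h1 h2
  have h5 := h1 h3
  have h6 : DD n (fun v => hh P γ (v.1 / v.2)) =
      DD n (fun v => ∏ i, ((d2 v (sp (P i)) : ℝ) : ℂ) ^ (γ i / 2)) := by
    unfold DD
    congr 1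
    ext a b
    unfold TT
    rw [Matrix.of_apply, Matrix.of_apply]
    refine integral_congr_ae ?_
    filter_upwards [ae_snd] with v hv
    rw [hh_ratio P γ hv]
  refine ⟨h5.congr (ae_FF P γ), ?_⟩
  rw [← integral_congr_ae (ae_FF P γ), h2, h4, ← mul_assoc, hcK, one_mul, h6]

/-- LNK, using the proof of DENS -/
theorem lnk' (hK : S_KER) (hO : S_ONB) : S_LNK := lnk dens hK hO

end

end Pool.Agent.P8H95.FM
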