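import Pool.Agent.P8H98.FM.Stm
import Pool.Agent.K7.H96.GMC.IndA

/-!
Project FM, package LNK, part C: the law of the ratio `v₁ / v₂`.
-/

set_option autoImplicit false

open MeasureTheory Set Filter Topology
open scoped ENNReal

namespace Pool.Agent.P8H95.FM

open Pool.Agent.R923.SE Pool.Agent.K7.H96.GMC Pool.Agent.P8H98.FM
open Pool.Agent.K7.H95.GMC hiding sg

noncomputable section

theorem cv_mul (y : ℂ) (hy : y ≠ 0) (f : ℂ → ℝ≥0∞) (hf : Measurable f) :
    ∫⁻ x, f x = ENNReal.ofReal (‖y‖ ^ 2) * ∫⁻ z, f (y * z) := by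
  have hd : LinearMap.det (y • (LinearMap.id : ℂ →ₗ[ℂ] ℂ)) = y := by
    rw [LinearMap.det_smul, LinearMap.det_id]; simp
  have h := lin_cv (volume : Measure ℂ) (y • (LinearMap.id : ℂ →ₗ[ℂ] ℂ)) (by rwa [hd]) f hf
  rw [hd] at h
  exact h

theorem lint_g2 {b : ℝ} (hb : 0 < b) :
    ∫⁻ y : ℂ, ENNReal.ofReal (‖y‖ ^ 2 * Real.exp (-b * ‖y‖ ^ 2) / Real.pi ^ 2) =
      ENNReal.ofReal (1 / (Real.pi * b ^ 2)) := by
  have h := Complex.integral_rpow_mul_exp_neg_mul_rpow (p := 2) (q := 2) (b := b) (by norm_num)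
    (by norm_num) hb
  simp only [Real.rpow_two] at h
  have e : (2 * Real.pi / 2) * b ^ (-(2 + 2) / 2 : ℝ) * Real.Gamma ((2 + 2) / 2) =
      Real.pi / b ^ 2 := by
    rw [show (-(2 + 2) / 2 : ℝ) = -((2 : ℕ) : ℝ) by norm_num, Real.rpow_neg hb.le,
      Real.rpow_natCast, show ((2 + 2) / 2 : ℝ) = 2 by norm_num, Real.Gamma_two]
    field_simp
  rw [e] at h
  have hpos : 0 < Real.pi / b ^ 2 := by positivity
  have hi : Integrable (fun y : ℂ => ‖y‖ ^ 2 * Real.exp (-b * ‖y‖ ^ 2)) := by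
    by_contra hc
    rw [integral_undef hc] at h
    exact hpos.ne h
  have h2 : ∫ y : ℂ, ‖y‖ ^ 2 * Real.exp (-b * ‖y‖ ^ 2) / Real.pi ^ 2 =
      1 / (Real.pi * b ^ 2) := by
    rw [integral_div, h]
    field_simp
  rw [← h2, ofReal_integral_eq_lintegral_ofReal (hi.div_const _)]
  exact Filter.Eventually.of_forall fun z => by positivity

/-- density of the ratio -/
def rd (z : ℂ) : ℝ := 1 / (Real.pi * (1 + ‖z‖ ^ 2) ^ 2)

theorem rd_nonneg (z : ℂ) : 0 ≤ rd z := by unfold rd; positivity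

theorem measurable_rd : Measurable rd := by
  unfold rd
  exact measurable_const.div (by fun_prop)

theorem ratio_lint (f : ℂ → ℝ≥0∞) (hf : Measurable f) :
    ∫⁻ v : Om, f (v.1 / v.2) ∂sg = ∫⁻ z, ENNReal.ofReal (rd z) * f z := by
  have hm : Measurable fun v : Om => f (v.1 / v.2) := hf.comp (measurable_fst.div measurable_snd)
  have hdc := Base.measurable_dc
  unfold sg
  rw [lintegral_prod_symm _ hm.aemeasurable, Base.cg_eq]
  rw [lintegral_withDensity_eq_lintegral_mul _ hdc hm.lintegral_prod_left']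
  have h1 : ∀ᵐ y : ℂ, (Base.dc * fun y => ∫⁻ x, f (x / y)
      ∂(volume.withDensity Base.dc)) y = ∫⁻ z : ℂ,
        ENNReal.ofReal (‖y‖ ^ 2 * Real.exp (-(1 + ‖z‖ ^ 2) * ‖y‖ ^ 2) / Real.pi ^ 2) * f z := by
    have h0 : ∀ᵐ y : ℂ, y ≠ 0 := by
      rw [ae_iff]
      simp
    filter_upwards [h0] with y hy
    have hy2 : 0 < ‖y‖ ^ 2 := by positivity
    simp only [Pi.mul_apply]
    have hm1 : Measurable fun x : ℂ => f (x / y) := hf.comp (measurable_id.div_const y)
    rw [lintegral_withDensity_eq_lintegral_mul _ hdc hm1, cv_mul y hy _ (hdc.mul hm1)]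
    have hdct : Base.dc y ≠ ∞ := ENNReal.ofReal_ne_top
    rw [← lintegral_const_mul' _ _ ENNReal.ofReal_ne_top, ← lintegral_const_mul' _ _ hdct]
    refine lintegral_congr fun z => ?_
    simp only [Pi.mul_apply]
    rw [mul_div_cancel_left₀ _ hy, ← mul_assoc, ← mul_assoc]
    congr 1
    unfold Base.dc
    rw [← ENNReal.ofReal_mul (by positivity), ← ENNReal.ofReal_mul (by positivity)]
    congr 1
    have e : Real.exp (-(1 + ‖z‖ ^ 2) * ‖y‖ ^ 2) =
        Real.exp (-‖y‖ ^ 2) * Real.exp (-‖y * z‖ ^ 2) := by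
      rw [← Real.exp_add, norm_mul]
      congr 1
      ring
    rw [e]
    field_simp
  rw [lintegral_congr_ae h1, lintegral_lintegral_swap]
  · refine lintegral_congr fun z => ?_
    have hz : (0 : ℝ) < 1 + ‖z‖ ^ 2 := by positivity
    have h2 : Measurable fun y : ℂ => ENNReal.ofReal
        (‖y‖ ^ 2 * Real.exp (-(1 + ‖z‖ ^ 2) * ‖y‖ ^ 2) / Real.pi ^ 2) :=
      ENNReal.measurable_ofReal.comp (by fun_prop)
    rw [lintegral_mul_const _ h2, lint_g2 hz]
    rfl
  · refine Measurable.aemeasurable ?_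
    have h3 : Measurable fun p : ℂ × ℂ => ENNReal.ofReal
        (‖p.1‖ ^ 2 * Real.exp (-(1 + ‖p.2‖ ^ 2) * ‖p.1‖ ^ 2) / Real.pi ^ 2) :=
      ENNReal.measurable_ofReal.comp (by fun_prop)
    exact h3.mul (hf.comp measurable_snd)

theorem measurable_ratio : Measurable fun v : Om => v.1 / v.2 := measurable_fst.div measurable_snd

theorem map_ratio : sg.map (fun v : Om => v.1 / v.2) =
    volume.withDensity fun z => ENNReal.ofReal (rd z) := by
  have hr : Measurable fun z => ENNReal.ofReal (rd z) :=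
    ENNReal.measurable_ofReal.comp measurable_rd
  refine Measure.ext_of_lintegral _ fun f hf => ?_
  rw [lintegral_map hf measurable_ratio, ratio_lint f hf,
    lintegral_withDensity_eq_lintegral_mul _ hr hf]
  rfl

theorem ratio_integrable {f : ℂ → ℂ} (hf : Measurable f) :
    Integrable (fun v : Om => f (v.1 / v.2)) sg ↔
      Integrable (fun z => ((rd z : ℝ) : ℂ) * f z) := by
  have hr : Measurable fun z => ENNReal.ofReal (rd z) :=
    ENNReal.measurable_ofReal.comp measurable_rd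
  have h1 := integrable_map_measure (μ := sg) (f := fun v : Om => v.1 / v.2) (g := f)
    hf.aestronglyMeasurable measurable_ratio.aemeasurable
  rw [map_ratio, integrable_withDensity_iff_integrable_smul' hr
    (Eventually.of_forall fun z => ENNReal.ofReal_lt_top)] at h1
  refine (h1.symm.trans ?_)
  refine integrable_congr (Eventually.of_forall fun z => ?_)
  simp only [ENNReal.toReal_ofReal (rd_nonneg z), Complex.real_smul]

theorem ratio_integral {f : ℂ → ℂ} (hf : Measurable f) :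
    ∫ v : Om, f (v.1 / v.2) ∂sg = ∫ z, ((rd z : ℝ) : ℂ) * f z := by
  have hr : Measurable fun z => ENNReal.ofReal (rd z) :=
    ENNReal.measurable_ofReal.comp measurable_rd
  have h1 := integral_map (μ := sg) (φ := fun v : Om => v.1 / v.2) (f := f)
    measurable_ratio.aemeasurable hf.aestronglyMeasurable
  rw [← h1, map_ratio, integral_withDensity_eq_integral_toReal_smul hr
    (Eventually.of_forall fun z => ENNReal.ofReal_lt_top)]
  refine integral_congr_ae (Eventually.of_forall fun z => ?_)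
  simp only [ENNReal.toReal_ofReal (rd_nonneg z), Complex.real_smul]

theorem ae_snd : ∀ᵐ v : Om ∂sg, v.2 ≠ 0 := by
  have h1 : ∀ᵐ y : ℂ ∂cg, y ≠ 0 := by
    rw [ae_iff]
    simp only [ne_eq, not_not]
    have h2 : {a : ℂ | a = 0} = {0} := by ext; simp
    rw [h2, cg, withDensity_apply _ (measurableSet_singleton _)]
    simp
  exact (measurePreserving_snd (μ := cg) (ν := cg)).quasiMeasurePreserving.ae h1

end

end Pool.Agent.P8H95.FM
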